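import Pool.Agent.Helper70.KN.Goals4

/-!
# Project KN (MP_20ee5e_ag), goal KP
-/

open MeasureTheory Set

namespace Pool.Agent.Helper67.KN.KP

open Pool.Agent.Helper70.KN

lemma cont (N : ℕ) (σ : ℝ) : Continuous fun s : ℝ => (max 0 (1 - s * σ)) ^ (N - 1) := by
  fun_prop

lemma kpA (N : ℕ) (hN : 1 ≤ N) (σ : ℝ) (h0 : 0 < σ) (b : ℝ) (hb0 : 0 ≤ b) (hb : b * σ ≤ 1) :
    (N : ℝ) * ∫ s in (0 : ℝ)..b, (max 0 (1 - s * σ)) ^ (N - 1) = (1 - (1 - b * σ) ^ N) / σ := by
  have e : ∫ s in (0 : ℝ)..b, (max 0 (1 - s * σ)) ^ (N - 1) =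
      ∫ s in (0 : ℝ)..b, (1 - s * σ) ^ (N - 1) := by
    apply intervalIntegral.integral_congr
    intro s hs
    rw [Set.uIcc_of_le hb0] at hs
    have h1 : s * σ ≤ b * σ := mul_le_mul_of_nonneg_right hs.2 h0.le
    have h2 : 0 ≤ 1 - s * σ := by linarith
    simp only [max_eq_right h2]
  have hN0 : (N : ℝ) ≠ 0 := by
    have : 0 < N := hN
    exact_mod_cast this.ne'
  have F : ∀ s : ℝ, HasDerivAt (fun s : ℝ => -(1 - s * σ) ^ N / (N * σ)) ((1 - s * σ) ^ (N - 1)) s := by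
    intro s
    have h1 : HasDerivAt (fun s : ℝ => 1 - s * σ) (-(1 * σ)) s :=
      ((hasDerivAt_id s).mul_const σ).const_sub 1
    have h2 := ((h1.pow N).neg).div_const ((N : ℝ) * σ)
    refine h2.congr_deriv ?_
    have hσ : σ ≠ 0 := h0.ne'
    rw [div_eq_iff (mul_ne_zero hN0 hσ)]
    ring
  rw [e, intervalIntegral.integral_eq_sub_of_hasDerivAt (fun s _ => F s)
    ((by fun_prop : Continuous fun s : ℝ => (1 - s * σ) ^ (N - 1)).intervalIntegrable _ _)]
  field_simp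
  ring

theorem t' : ∀ (N : ℕ), 2 ≤ N → kp N 0 = N / 2 ∧
    (∀ σ : ℝ, 0 < σ → σ ≤ 2 → kp N σ = (1 - (1 - σ / 2) ^ N) / σ) ∧
      ∀ σ : ℝ, 2 ≤ σ → kp N σ = 1 / σ := by
  intro N hN
  refine ⟨?_, ?_, ?_⟩
  · unfold kp
    simp
    ring
  · intro σ h0 h2
    unfold kp
    rw [kpA N (by omega) σ h0 (1 / 2) (by norm_num) (by linarith)]
    congr 3
    ring
  · intro σ h2
    have h0 : 0 < σ := by linarith
    unfold kp
    have hs := intervalIntegral.integral_add_adjacent_intervals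
      (μ := volume) ((cont N σ).intervalIntegrable 0 (1 / σ)) ((cont N σ).intervalIntegrable (1 / σ) (1 / 2))
    have hle : 1 / σ ≤ 1 / 2 := one_div_le_one_div_of_le (by norm_num) h2
    have hz : ∫ s in (1 / σ : ℝ)..(1 / 2), (max 0 (1 - s * σ)) ^ (N - 1) = 0 := by
      have : ∫ s in (1 / σ : ℝ)..(1 / 2), (max 0 (1 - s * σ)) ^ (N - 1) =
          ∫ s in (1 / σ : ℝ)..(1 / 2), (0 : ℝ) := by
        apply intervalIntegral.integral_congr
        intro s hs
        rw [Set.uIcc_of_le hle] at hs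
        have h1 : 1 ≤ s * σ := by
          have := hs.1
          rwa [div_le_iff₀ h0] at this
        have h3 : 1 - s * σ ≤ 0 := by linarith
        simp only [max_eq_left h3]
        exact zero_pow (by omega)
      rw [this]
      simp
    rw [← hs, hz, add_zero, kpA N (by omega) σ h0 (1 / σ) (by positivity)
      (by rw [div_mul_cancel₀ _ h0.ne'])]
    rw [div_mul_cancel₀ _ h0.ne', sub_self, zero_pow (by omega), sub_zero]

theorem t : S_KP := t'

end Pool.Agent.Helper67.KN.KP
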